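import Pool.Agent.N912.ED.W465EGLoss
import Pool.Agent.N912.LC.Stm

/-!
Project LC (helper912), part LC2 (helper80): few pairs are lost, in an ideal class.
The image of the ideal under `v ↦ δ v / m` is an ideal of norm `p`; the count of
`Pool.Agent.N912.ED.W465EGLoss` is repeated for the primitive vectors of this ideal.
-/

set_option autoImplicit false

namespace Pool.Agent.N80.LC

open Finset Filter
open Pool.Agent.W78.GA Pool.Agent.N912.ED.W78EG
open Pool.Agent.N912.ED.W465EGL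

variable {t c : ℤ} {f : ℕ} {χ : DirichletCharacter ℂ f}

/-- the primitive vectors of an ideal of norm `p` -/
structure Sys (t c : ℤ) (p : ℕ) (J : Qd t c → Prop) : Prop where
  ne : ∀ a, J a → a ≠ 0
  sep : ∀ a b, J a → J b → dt a b = 0 → b = a ∨ b = -a
  dvd : ∀ a b, J a → J b → (p : ℤ) ∣ dt a b
  prm : ∀ a, J a → ¬ prim a → ∃ u : Qd t c, a = ((p : ℕ) : Qd t c) * u

/-- the pairs considered -/
structure Pe (J : Qd t c → Prop) (p : ℕ) (s Z : ℝ) (e : Qd t c × Qd t c) : Prop where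
  p1 : J e.1
  p2 : J e.2
  n1 : (nm e.1 : ℝ) ≤ p * Z
  n2 : (nm e.2 : ℝ) ≤ p * Z
  d : dt e.1 e.2 = p
  i : 0 < pp e.1 e.2
  l1 : s * (p * Z) < (nm e.1 : ℝ)
  l2 : s * (p * Z) < (nm e.2 : ℝ)

lemma Pe.pp_ge (hF : Fd t c f χ) {J : Qd t c → Prop} {p : ℕ} (hp : 0 < p) {s Z : ℝ}
    {e : Qd t c × Qd t c} (h : Pe J p s Z e) (hs : f ≤ s * Z) :
    p * (s * Z) ≤ (pp e.1 e.2 : ℝ) := by
  by_contra hc
  push Not at hc
  have hf3 : (3 : ℝ) ≤ f := by exact_mod_cast hF.three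
  have hpR : (0 : ℝ) < p := by exact_mod_cast hp
  have h1 := nm_nmR hF e.1 e.2
  rw [h.d] at h1
  have h2 : (0 : ℝ) < pp e.1 e.2 := by exact_mod_cast h.i
  have e0 : s * (p * Z) = p * (s * Z) := by ring
  have l1 := h.l1
  have l2 := h.l2
  rw [e0] at l1 l2
  set S : ℝ := s * Z with hS
  have hS0 : 0 < S := by linarith
  have hpS : 0 < (p : ℝ) * S := by positivity
  have h3 : (pp e.1 e.2 : ℝ) ^ 2 < (p * S) ^ 2 := by
    apply pow_lt_pow_left₀ hc h2.le two_ne_zero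
  have h4 : (p * S) * (p * S) < (nm e.1 : ℝ) * nm e.2 :=
    mul_lt_mul'' l1 l2 hpS.le hpS.le
  push_cast at h1
  have h5 : 3 * ((p : ℝ) * S) ^ 2 < f * (p : ℝ) ^ 2 := by nlinarith
  have h6 : (f : ℝ) * (p : ℝ) ^ 2 ≤ ((p : ℝ) * S) ^ 2 := by
    rw [mul_pow, mul_comm]
    apply mul_le_mul_of_nonneg_left _ (by positivity)
    nlinarith
  nlinarith [sq_nonneg ((p : ℝ) * S)]

/-- separated directions -/
lemma sepJ (hF : Fd t c f χ) {J : Qd t c → Prop} {p : ℕ} (hJ : Sys t c p J) {g : Qd t c}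
    {Z A L : ℝ} (hp : 0 < p) (V : Finset (Qd t c)) (hZ : 0 < Z)
    (hV : ∀ v ∈ V, J v ∧ (nm v : ℝ) ≤ p * Z ∧ 0 < pp g v ∧
      A * pp g v ≤ dt g v ∧ (dt g v : ℝ) ≤ (A + L) * pp g v) :
    V.card ≤ ⌊L * (2 * Z)⌋₊ + 1 := by
  classical
  have hD := hD_of hF
  set τ : Qd t c → ℝ := fun v => (dt g v : ℝ) / pp g v with hτ
  set F : Qd t c → ℕ := fun v => ⌊(τ v - A) * (2 * Z)⌋₊ with hFd
  have hpR : (0 : ℝ) < p := by exact_mod_cast hp
  have hfR : (0 : ℝ) ≤ f := by positivity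
  have hmap : ∀ v ∈ V, F v ∈ range (⌊L * (2 * Z)⌋₊ + 1) := by
    intro v hv
    obtain ⟨h1, h2, h3, h4, h5⟩ := hV v hv
    have h3' : (0 : ℝ) < pp g v := by exact_mod_cast h3
    rw [mem_range, Nat.lt_succ_iff]
    apply Nat.floor_le_floor
    apply mul_le_mul_of_nonneg_right _ (by positivity)
    have : τ v ≤ A + L := by rw [hτ]; simp only; rw [div_le_iff₀ h3']; exact h5
    linarith
  have hinj : ∀ v ∈ V, ∀ w ∈ V, F v = F w → v = w := by
    intro v hv w hw hvw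
    by_contra hne
    obtain ⟨h1, h2, h3, h4, h5⟩ := hV v hv
    obtain ⟨k1, k2, k3, k4, k5⟩ := hV w hw
    have h3' : (0 : ℝ) < pp g v := by exact_mod_cast h3
    have k3' : (0 : ℝ) < pp g w := by exact_mod_cast k3
    have hA1 : 0 ≤ (τ v - A) * (2 * Z) := by
      apply mul_nonneg _ (by positivity)
      have : A ≤ τ v := by rw [hτ]; simp only; rw [le_div_iff₀ h3']; exact h4
      linarith
    have hA2 : 0 ≤ (τ w - A) * (2 * Z) := by
      apply mul_nonneg _ (by positivity)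
      have : A ≤ τ w := by rw [hτ]; simp only; rw [le_div_iff₀ k3']; exact k4
      linarith
    have hfl : |(τ v - A) * (2 * Z) - (τ w - A) * (2 * Z)| < 1 := by
      have e1 := Nat.floor_le hA1
      have e2 := Nat.lt_floor_add_one ((τ v - A) * (2 * Z))
      have e3 := Nat.floor_le hA2
      have e4 := Nat.lt_floor_add_one ((τ w - A) * (2 * Z))
      have e5 : (⌊(τ v - A) * (2 * Z)⌋₊ : ℝ) = (⌊(τ w - A) * (2 * Z)⌋₊ : ℝ) := by
        have : F v = F w := hvw
        rw [hFd] at this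
        simp only at this
        rw [this]
      rw [abs_lt]
      constructor <;> linarith
    have hd : dt w v ≠ 0 := by
      intro h0
      rcases hJ.sep w v k1 h1 h0 with h | h
      · exact hne h
      · rw [h] at h3
        have : pp g (-w) = - pp g w := by
          rw [ppZ, ppZ]; simp only [QuadraticAlgebra.re_neg, QuadraticAlgebra.im_neg]; ring
        rw [this] at h3
        linarith
    have hd1 : (p : ℝ) ≤ |(dt w v : ℝ)| := by
      have : (p : ℤ) ≤ |dt w v| := by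
        apply Int.le_of_dvd (abs_pos.2 hd)
        rw [dvd_abs]
        exact hJ.dvd w v k1 h1
      exact_mod_cast this
    have hg : g ≠ 0 := by
      rintro rfl
      rw [ppZ] at h3
      simp at h3
    have hgR : (0 : ℝ) < nm g := nm_posR hD hg
    have hc : (dt g v : ℝ) * pp g w - dt g w * pp g v =
        2 * (nm g * dt w v) := by
      have := cross hD g v w
      exact_mod_cast this
    have hi1 : (pp g v : ℝ) ^ 2 ≤ 4 * (nm g * (p * Z)) := by
      have e1 := nm_nmR hF g v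
      have e2 : (nm g : ℝ) * nm v ≤ nm g * (p * Z) := by gcongr
      have e3 : 0 ≤ (f : ℝ) * (dt g v : ℝ) ^ 2 := by positivity
      linarith
    have hi2 : (pp g w : ℝ) ^ 2 ≤ 4 * (nm g * (p * Z)) := by
      have e1 := nm_nmR hF g w
      have e2 : (nm g : ℝ) * nm w ≤ nm g * (p * Z) := by gcongr
      have e3 : 0 ≤ (f : ℝ) * (dt g w : ℝ) ^ 2 := by positivity
      linarith
    have hi : (pp g v : ℝ) * pp g w ≤ 4 * (nm g * (p * Z)) := by
      nlinarith [sq_nonneg ((pp g v : ℝ) - pp g w)]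
    have hpos : (0 : ℝ) < pp g v * pp g w := mul_pos h3' k3'
    have hdiff : (τ v - A) * (2 * Z) - (τ w - A) * (2 * Z) =
        (4 * (nm g * Z)) * dt w v / (pp g v * pp g w) := by
      rw [hτ]
      simp only
      rw [div_sub' h3'.ne', div_sub' k3'.ne']
      rw [eq_div_iff hpos.ne']
      field_simp
      linear_combination 2 * hc
    rw [hdiff, abs_div, abs_of_pos hpos, abs_mul, abs_of_pos (by positivity), div_lt_one hpos] at hfl
    have : 4 * (nm g * Z) * (p : ℝ) ≤ 4 * (nm g * Z) * |(dt w v : ℝ)| := by gcongr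
    linarith
  have := card_le_card_of_injOn F hmap hinj
  rwa [card_range] at this

lemma partner1 (hF : Fd t c f χ) {J : Qd t c → Prop} {p : ℕ} (hJ : Sys t c p J) (hp : 0 < p)
    {s Z : ℝ} (hZ : 0 < Z) (hs0 : 0 < s) (hs : f ≤ s * Z) (D : Finset (Qd t c × Qd t c))
    (V : Finset (Qd t c)) (h : ∀ e ∈ D, Pe J p s Z e) (hV : ∀ e ∈ D, e.1 ∈ V) :
    D.card ≤ (⌊2 / s⌋₊ + 1) * V.card := by
  classical
  have hf3 : (3 : ℝ) ≤ f := by exact_mod_cast hF.three
  have hsZ : 0 < s * Z := by linarith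
  apply card_le_mul_card_image_of_maps_to (f := Prod.fst) hV
  intro v _
  have e1 : ((D.filter (fun e => e.1 = v)).image Prod.snd).card =
      (D.filter (fun e => e.1 = v)).card := by
    apply card_image_of_injOn
    intro e he f hf hef
    rw [mem_coe, mem_filter] at he hf
    exact Prod.ext (by rw [he.2, hf.2]) hef
  rw [← e1]
  have key := sepJ hF hJ (g := v) (Z := Z) (A := 0) (L := 1 / (s * Z)) hp
    ((D.filter (fun e => e.1 = v)).image Prod.snd) hZ (by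
      intro w hw
      rw [mem_image] at hw
      obtain ⟨e, he, rfl⟩ := hw
      rw [mem_filter] at he
      obtain ⟨he, rfl⟩ := he
      have hq := h e he
      have hi := hq.pp_ge hF hp hs
      refine ⟨hq.p2, hq.n2, hq.i, ?_, ?_⟩
      · rw [hq.d]; simp
      · rw [hq.d]
        push_cast
        rw [zero_add, div_mul_eq_mul_div, le_div_iff₀ hsZ]
        linarith)
  have e2 : 1 / (s * Z) * (2 * Z) = 2 / s := by field_simp
  rwa [e2] at key

lemma partner2 (hF : Fd t c f χ) {J : Qd t c → Prop} {p : ℕ} (hJ : Sys t c p J) (hp : 0 < p)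
    {s Z : ℝ} (hZ : 0 < Z) (hs0 : 0 < s) (hs : f ≤ s * Z) (D : Finset (Qd t c × Qd t c))
    (V : Finset (Qd t c)) (h : ∀ e ∈ D, Pe J p s Z e) (hV : ∀ e ∈ D, e.2 ∈ V) :
    D.card ≤ (⌊2 / s⌋₊ + 1) * V.card := by
  classical
  have hf3 : (3 : ℝ) ≤ f := by exact_mod_cast hF.three
  have hsZ : 0 < s * Z := by linarith
  apply card_le_mul_card_image_of_maps_to (f := Prod.snd) hV
  intro v _
  have e1 : ((D.filter (fun e => e.2 = v)).image Prod.fst).card =
      (D.filter (fun e => e.2 = v)).card := by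
    apply card_image_of_injOn
    intro e he f hf hef
    rw [mem_coe, mem_filter] at he hf
    exact Prod.ext hef (by rw [he.2, hf.2])
  rw [← e1]
  have key := sepJ hF hJ (g := v) (Z := Z) (A := -(1 / (s * Z))) (L := 1 / (s * Z)) hp
    ((D.filter (fun e => e.2 = v)).image Prod.fst) hZ (by
      intro w hw
      rw [mem_image] at hw
      obtain ⟨e, he, rfl⟩ := hw
      rw [mem_filter] at he
      obtain ⟨he, rfl⟩ := he
      have hq := h e he
      have hi := hq.pp_ge hF hp hs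
      rw [pp_comm e.2 e.1, dt_swap e.2 e.1, hq.d]
      have h5 : (p : ℝ) ≤ 1 / (s * Z) * pp e.1 e.2 := by
        rw [div_mul_eq_mul_div, le_div_iff₀ hsZ]
        linarith
      refine ⟨hq.p1, hq.n1, hq.i, ?_, ?_⟩
      · push_cast
        linarith
      · push_cast
        have : (0 : ℝ) ≤ p := by positivity
        linarith)
  have e2 : 1 / (s * Z) * (2 * Z) = 2 / s := by field_simp
  rwa [e2] at key

lemma typeb (hF : Fd t c f χ) {J : Qd t c → Prop} {p : ℕ} (hp : 0 < p) {s Z : ℝ}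
    {e : Qd t c × Qd t c} (he : Pe J p s Z e) (hs : f ≤ s * Z) {b : Qd t c} (hn : 0 < nm e.1)
    (h1 : 0 < dt e.1 b) (h2 : 0 < dt b e.2) :
    0 < pp b e.1 ∧ -(1 / (s * Z)) * pp b e.1 ≤ dt b e.1 ∧ (dt b e.1 : ℝ) ≤ 0 := by
  have hD := hD_of hF
  have hf3 : (3 : ℝ) ≤ f := by exact_mod_cast hF.three
  have hsZ : 0 < s * Z := by linarith
  have hi := he.pp_ge hF hp hs
  have hpZ : (0 : ℤ) < p := by exact_mod_cast hp
  have hpR : (0 : ℝ) < p := by exact_mod_cast hp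
  have e1 := plk hD e.1 e.2 b
  rw [he.d] at e1
  have hnZ : (0 : ℤ) < nm e.1 := by exact_mod_cast hn
  have e4 : 0 < dt b e.2 * nm e.1 := mul_pos h2 hnZ
  have e5 : dt e.1 b * pp e.1 e.2 < p * pp b e.1 := by linarith
  have e6 : 0 < dt e.1 b * pp e.1 e.2 := mul_pos h1 he.i
  have e7 : dt b e.1 = -dt e.1 b := dt_swap _ _
  have e9 : (0 : ℝ) < dt e.1 b := by exact_mod_cast h1
  refine ⟨?_, ?_, ?_⟩
  · have : 0 < (p : ℤ) * pp b e.1 := by linarith
    exact pos_of_mul_pos_right this hpZ.le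
  · rw [e7]
    push_cast
    have e8 : (dt e.1 b : ℝ) * pp e.1 e.2 ≤ p * pp b e.1 := by exact_mod_cast e5.le
    have e10 : (dt e.1 b : ℝ) * (p * (s * Z)) ≤ dt e.1 b * pp e.1 e.2 := by gcongr
    have e12 : (dt e.1 b : ℝ) * (s * Z) ≤ pp b e.1 := by
      have : (p : ℝ) * (dt e.1 b * (s * Z)) ≤ p * pp b e.1 := by linarith
      exact le_of_mul_le_mul_left this hpR
    have e11 : (dt e.1 b : ℝ) ≤ 1 / (s * Z) * pp b e.1 := by
      rw [div_mul_eq_mul_div, le_div_iff₀ hsZ]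
      linarith
    linarith
  · rw [e7]
    push_cast
    linarith

/-- number of the vectors in the cone over an edge -/
lemma countc (hF : Fd t c f χ) {J : Qd t c → Prop} {p : ℕ} (hJ : Sys t c p J) (hp : 0 < p)
    {Y : ℝ} (hY : f ≤ Y) {g : Qd t c × Qd t c} (hg : g ∈ edge t c Y)
    {Z : ℝ} (hZ : 0 < Z) (V : Finset (Qd t c))
    (hV : ∀ v ∈ V, J v ∧ (nm v : ℝ) ≤ p * Z ∧ 0 < dt g.1 v ∧ 0 < dt v g.2) :
    (V.card : ℝ) ≤ (1 + f) * Z / (Real.sqrt (nm g.1) * Real.sqrt (nm g.2)) + 1 := by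
  have hD := hD_of hF
  have hf3 : (3 : ℝ) ≤ f := by exact_mod_cast hF.three
  have hi := edge_pp hF hY hg
  have hg' := (mem_edge hD).1 hg
  have hiR : (1 : ℝ) ≤ pp g.1 g.2 := by exact_mod_cast hi
  have ha : 0 < nm g.1 := nm_pos hD (prim_ne_zero hg'.1.1.1)
  have hb : 0 < nm g.2 := nm_pos hD (prim_ne_zero hg'.1.2.1)
  have haR : (0 : ℝ) < nm g.1 := by exact_mod_cast ha
  have hbR : (0 : ℝ) < nm g.2 := by exact_mod_cast hb
  have key := sepJ hF hJ (g := g.1) (Z := Z) (A := 0) (L := 1 / pp g.1 g.2) hp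
    V hZ (by
      intro v hv
      obtain ⟨k1, k2, k3, k4⟩ := hV v hv
      have e1 := plk2 hD hg'.2.1 v
      have e2 : 0 < dt v g.2 * nm g.1 := mul_pos k4 (by exact_mod_cast ha)
      have e3 : 0 < dt g.1 v * pp g.1 g.2 := mul_pos k3 (by linarith)
      refine ⟨k1, k2, by linarith, ?_, ?_⟩
      · rw [zero_mul]; exact_mod_cast k3.le
      · rw [zero_add, div_mul_eq_mul_div, le_div_iff₀ (by linarith), one_mul]
        have : dt g.1 v * pp g.1 g.2 ≤ pp g.1 v := by linarith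
        exact_mod_cast this)
  have h1 : (V.card : ℝ) ≤ ⌊1 / (pp g.1 g.2 : ℝ) * (2 * Z)⌋₊ + 1 := by exact_mod_cast key
  have h2 : (⌊1 / (pp g.1 g.2 : ℝ) * (2 * Z)⌋₊ : ℝ) ≤ 1 / (pp g.1 g.2 : ℝ) * (2 * Z) :=
    Nat.floor_le (by positivity)
  have h3 := nm_nmR hF g.1 g.2
  rw [hg'.2.1] at h3
  have h4 : Real.sqrt (nm g.1) * Real.sqrt (nm g.2) ≤ (1 + f) / 2 * pp g.1 g.2 := by
    rw [← Real.sqrt_mul haR.le]
    apply Real.sqrt_le_iff.2
    constructor
    · positivity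
    · push_cast at h3
      have e1 : (1 : ℝ) ≤ (pp g.1 g.2 : ℝ) ^ 2 := by nlinarith
      have e2 : (f : ℝ) * 1 ≤ f * (pp g.1 g.2 : ℝ) ^ 2 := by gcongr
      have e3 : 4 * ((nm g.1 : ℝ) * nm g.2) ≤ (1 + f) * (pp g.1 g.2 : ℝ) ^ 2 := by nlinarith
      have e4 : (1 + (f : ℝ)) * (pp g.1 g.2 : ℝ) ^ 2 ≤ (1 + f) * (1 + f) * (pp g.1 g.2 : ℝ) ^ 2 := by
        gcongr
        nlinarith
      have e5 : ((1 + (f : ℝ)) / 2 * pp g.1 g.2) ^ 2 =
          (1 + f) * (1 + f) * (pp g.1 g.2 : ℝ) ^ 2 / 4 := by ring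
      rw [e5]
      linarith
  have h5 : 1 / (pp g.1 g.2 : ℝ) * (2 * Z) ≤
      (1 + f) * Z / (Real.sqrt (nm g.1) * Real.sqrt (nm g.2)) := by
    rw [div_mul_eq_mul_div, one_mul, div_le_div_iff₀ (by linarith)
      (mul_pos (Real.sqrt_pos.2 haR) (Real.sqrt_pos.2 hbR))]
    have e1 : 2 * Z * (Real.sqrt (nm g.1) * Real.sqrt (nm g.2)) ≤
        2 * Z * ((1 + f) / 2 * pp g.1 g.2) := by gcongr
    have e2 : 2 * Z * ((1 + f) / 2 * pp g.1 g.2) = (1 + f) * Z * pp g.1 g.2 := by ring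
    linarith
  linarith

/-- vectors which are not primitive -/
lemma notprim (hF : Fd t c f χ) {J : Qd t c → Prop} {p : ℕ} (hJ : Sys t c p J) (hp : 0 < p)
    {Z : ℝ} (hZ : 0 ≤ Z) (A : Finset (Qd t c))
    (hA : ∀ v ∈ A, J v ∧ (nm v : ℝ) ≤ p * Z ∧ ¬ prim v) :
    (A.card : ℝ) ≤ 16 * (Z / p) := by
  classical
  have hD := hD_of hF
  have hpR : (0 : ℝ) < p := by exact_mod_cast hp
  have h1 : A ⊆ (ball t c (Z / p)).image (fun u => ((p : ℕ) : Qd t c) * u) := by
    intro v hv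
    obtain ⟨h1, h2, h3⟩ := hA v hv
    obtain ⟨u, hu⟩ := hJ.prm v h1 h3
    rw [mem_image]
    refine ⟨u, ?_, hu.symm⟩
    rw [mem_ball hD]
    have h7 : nm v = p ^ 2 * nm u := by rw [hu, nm_mul, nm_natCast]
    have h8 := nm_pos hD (hJ.ne v h1)
    constructor
    · rw [h7] at h8
      exact Nat.pos_of_mul_pos_left h8
    · rw [le_div_iff₀ hpR]
      rw [h7] at h2
      push_cast at h2
      have h9 : (p : ℝ) * (nm u * p) ≤ p * Z := by linarith
      exact le_of_mul_le_mul_left h9 hpR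
  have h2 : A.card ≤ (ball t c (Z / p)).card := (card_le_card h1).trans card_image_le
  have h3 : (A.card : ℝ) ≤ (ball t c (Z / p)).card := by exact_mod_cast h2
  exact h3.trans (card_ball hF (by positivity))

/-- the pair is in the cone over a good edge -/
def InJ (K : ℕ) (κ : ℝ) (Q : ℕ) (X : ℝ) (e : Qd t c × Qd t c) : Prop :=
  ∃ g ∈ good t c K κ Q X, e.1 ∈ cone X g.1 g.2 ∧ e.2 ∈ cone X g.1 g.2

lemma classify (hF : Fd t c f χ) {J : Qd t c → Prop} {K Q p : ℕ} {κ s X : ℝ}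
    (hp : 0 < p) {e : Qd t c × Qd t c}
    (he : Pe J p s (X / p) e) (hY1 : f ≤ X / (K * Q)) (hYs : X / (K * Q) ≤ s * X)
    (hn : ¬ InJ K κ Q X e) (h1 : prim e.1) (h2 : prim e.2) :
    (∃ b ∈ pball t c (X / (K * Q)), 0 < dt e.1 b ∧ 0 < dt b e.2) ∨
    (∃ g ∈ edge t c (X / (K * Q)), ((nm g.1 : ℝ) ≤ κ * (X / (K * Q)) ∨
      (nm g.2 : ℝ) ≤ κ * (X / (K * Q))) ∧ 0 < dt g.1 e.1 ∧ 0 < dt e.1 g.2) := by
  have hD := hD_of hF
  have hpR : (0 : ℝ) < p := by exact_mod_cast hp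
  have hpZ : (0 : ℤ) < p := by exact_mod_cast hp
  have eX : (p : ℝ) * (X / p) = X := by field_simp
  have l1 : X / (K * Q) < (nm e.1 : ℝ) := by
    have := he.l1
    rw [eX] at this
    linarith
  have l2 : X / (K * Q) < (nm e.2 : ℝ) := by
    have := he.l2
    rw [eX] at this
    linarith
  have u1 : (nm e.1 : ℝ) ≤ X := by
    have := he.n1
    rwa [eX] at this
  have u2 : (nm e.2 : ℝ) ≤ X := by
    have := he.n2
    rwa [eX] at this
  obtain ⟨g, hg, k1, k2⟩ := exists_edge hF hY1 h1 l1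
  have hg' := (mem_edge hD).1 hg
  rcases lt_trichotomy (dt g.2 e.2) 0 with h | h | h
  · right
    refine ⟨g, hg, ?_, k1, k2⟩
    by_contra hc
    push Not at hc
    apply hn
    refine ⟨g, ?_, ?_, ?_⟩
    · unfold good
      rw [mem_filter]
      exact ⟨hg, hc⟩
    · rw [mem_cone hD]
      exact ⟨⟨h1, u1⟩, k1, k2⟩
    · rw [mem_cone hD]
      have h3 : 0 < dt e.2 g.2 := by rw [dt_swap]; linarith
      refine ⟨⟨h2, u2⟩, ?_, h3⟩
      have e1 : dt g.1 e.2 * dt e.1 g.2 = dt g.1 g.2 * dt e.1 e.2 +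
          dt g.1 e.1 * dt e.2 g.2 := by
        simp only [dtZ]; ring
      rw [hg'.2.1, he.d] at e1
      have e2 : 0 < dt g.1 e.2 * dt e.1 g.2 := by
        rw [e1]
        have := mul_pos k1 h3
        linarith
      exact pos_of_mul_pos_left e2 k2.le
  · exfalso
    have : (nm e.2 : ℝ) = nm g.2 := by
      rcases par_eq hg'.1.2.1 h2 h with h' | h'
      · rw [h']
      · rw [h', nm_neg]
    linarith [hg'.1.2.2]
  · left
    refine ⟨g.2, ?_, k2, h⟩
    rw [mem_pball hD]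
    exact hg'.1.2

lemma count (hF : Fd t c f χ) {J : Qd t c → Prop} {K Q p : ℕ} {κ s X : ℝ} (hJ : Sys t c p J)
    (hp : 0 < p) (hs0 : 0 < s)
    (hs : f ≤ s * (X / p)) (hκ : 0 < κ) (hκ4 : κ ≤ 1 / 4) (hY2 : f ≤ X / (K * Q))
    (hYs : X / (K * Q) ≤ s * X) (D : Finset (Qd t c × Qd t c))
    (hDD : ∀ e ∈ D, Pe J p s (X / p) e) (hn : ∀ e ∈ D, ¬ InJ K κ Q X e) :
    (D.card : ℝ) ≤ (⌊2 / s⌋₊ + 1) * (32 * (X / p / p) + 16 * (X / (K * Q)) * (⌊2 / s⌋₊ + 1) +
      2 * (128 * (1 + f) * (X / p) * Real.sqrt κ + 16 * (κ * (X / (K * Q))))) := by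
  classical
  have hD := hD_of hF
  have hf3 : (3 : ℝ) ≤ f := by exact_mod_cast hF.three
  set B : ℕ := ⌊2 / s⌋₊ + 1 with hB
  set Z : ℝ := X / p with hZd
  set Y : ℝ := X / (K * Q) with hYd
  have hZ : 0 < Z := by
    by_contra hc
    push Not at hc
    nlinarith
  set U : Finset (Qd t c) := (ball t c (p * Z)).filter J with hU
  have memU : ∀ v, J v → (nm v : ℝ) ≤ p * Z → v ∈ U := by
    intro v hv hv2
    rw [hU, mem_filter, mem_ball hD]
    exact ⟨⟨nm_pos hD (hJ.ne v hv), hv2⟩, hv⟩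
  have ofU : ∀ v ∈ U, J v ∧ (nm v : ℝ) ≤ p * Z := by
    intro v hv
    rw [hU, mem_filter, mem_ball hD] at hv
    exact ⟨hv.2, hv.1.2⟩
  set A : Finset (Qd t c) := U.filter (fun v => ¬ prim v) with hA
  set Vb : Finset (Qd t c) := (pball t c Y).biUnion (fun b => U.filter (fun v =>
    0 < pp b v ∧ -(1 / (s * Z)) * pp b v ≤ dt b v ∧ (dt b v : ℝ) ≤ 0)) with hVb
  set E1 : Finset (Qd t c × Qd t c) := (edge t c Y).filter (fun g => (nm g.1 : ℝ) ≤ κ * Y) with hE1
  set E2 : Finset (Qd t c × Qd t c) := (edge t c Y).filter (fun g => (nm g.2 : ℝ) ≤ κ * Y) with hE2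
  set W : Qd t c × Qd t c → Finset (Qd t c) := fun g => U.filter (fun v =>
    0 < dt g.1 v ∧ 0 < dt v g.2) with hW
  have hAc : (A.card : ℝ) ≤ 16 * (Z / p) := by
    apply notprim hF hJ hp hZ.le
    intro v hv
    rw [hA, mem_filter] at hv
    exact ⟨(ofU v hv.1).1, (ofU v hv.1).2, hv.2⟩
  have hVbc : (Vb.card : ℝ) ≤ 16 * Y * B := by
    have h1 : Vb.card ≤ (pball t c Y).card * B := by
      rw [hVb]
      apply card_biUnion_le_card_mul
      intro b _
      have key := sepJ hF hJ (g := b) (Z := Z) (A := -(1 / (s * Z)))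
        (L := 1 / (s * Z)) hp (U.filter (fun v =>
          0 < pp b v ∧ -(1 / (s * Z)) * pp b v ≤ dt b v ∧ (dt b v : ℝ) ≤ 0)) hZ (by
          intro v hv
          rw [mem_filter] at hv
          obtain ⟨k1, k3, k4, k5⟩ := hv
          refine ⟨(ofU v k1).1, (ofU v k1).2, k3, k4, ?_⟩
          rw [neg_add_cancel, zero_mul]
          exact k5)
      have e2 : 1 / (s * Z) * (2 * Z) = 2 / s := by field_simp
      rwa [e2] at key
    have h2 : (Vb.card : ℝ) ≤ (pball t c Y).card * B := by exact_mod_cast h1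
    have h3 : ((pball t c Y).card : ℝ) ≤ 16 * Y := by
      refine le_trans ?_ (card_ball hF (by linarith))
      unfold pball
      exact_mod_cast card_filter_le _ _
    refine h2.trans ?_
    gcongr
  have hWc : ∀ E : Finset (Qd t c × Qd t c), (∀ g ∈ E, g ∈ edge t c Y) →
      ((E.biUnion W).card : ℝ) ≤
      ∑ g ∈ E, ((1 + f) * Z / (Real.sqrt (nm g.1) * Real.sqrt (nm g.2)) + 1) := by
    intro E hE
    have h1 : ((E.biUnion W).card : ℝ) ≤ ∑ g ∈ E, ((W g).card : ℝ) := by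
      exact_mod_cast card_biUnion_le
    refine h1.trans (sum_le_sum ?_)
    intro g hg
    apply countc hF hJ hp hY2 (hE g hg) hZ
    intro v hv
    rw [hW] at hv
    simp only at hv
    rw [mem_filter] at hv
    exact ⟨(ofU v hv.1).1, (ofU v hv.1).2, hv.2.1, hv.2.2⟩
  have hE1e : ∀ g ∈ E1, g ∈ edge t c Y := fun g hg => (mem_filter.1 hg).1
  have hE2e : ∀ g ∈ E2, g ∈ edge t c Y := fun g hg => (mem_filter.1 hg).1
  have h1 : ((E1.biUnion W).card : ℝ) ≤ 128 * (1 + f) * Z * Real.sqrt κ + 16 * (κ * Y) :=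
    (hWc E1 hE1e).trans (sumE hF hY2 hκ hκ4 hZ E1 Prod.fst Prod.snd hE1e (fst_inj hD)
      (fun g _ => Or.inl ⟨rfl, rfl⟩) (fun g hg => (mem_filter.1 hg).2))
  have h2 : ((E2.biUnion W).card : ℝ) ≤ 128 * (1 + f) * Z * Real.sqrt κ + 16 * (κ * Y) :=
    (hWc E2 hE2e).trans (sumE hF hY2 hκ hκ4 hZ E2 Prod.snd Prod.fst hE2e (snd_inj hD)
      (fun g _ => Or.inr ⟨rfl, rfl⟩) (fun g hg => (mem_filter.1 hg).2))
  set V1 : Finset (Qd t c) := A ∪ (Vb ∪ (E1.biUnion W ∪ E2.biUnion W)) with hV1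
  have hV1c : (V1.card : ℝ) ≤ A.card + (Vb.card + ((E1.biUnion W).card + (E2.biUnion W).card)) := by
    have e1 := card_union_le A (Vb ∪ (E1.biUnion W ∪ E2.biUnion W))
    have e2 := card_union_le Vb (E1.biUnion W ∪ E2.biUnion W)
    have e3 := card_union_le (E1.biUnion W) (E2.biUnion W)
    have e4 : V1.card ≤ A.card + (Vb.card + ((E1.biUnion W).card + (E2.biUnion W).card)) := by
      rw [hV1]; omega
    exact_mod_cast e4
  have hcover : ∀ e ∈ D, e.1 ∈ V1 ∨ e.2 ∈ A := by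
    intro e he
    have hP := hDD e he
    have m1 := memU e.1 hP.p1 hP.n1
    have m2 := memU e.2 hP.p2 hP.n2
    by_cases q2 : prim e.2
    · left
      rw [hV1, mem_union, mem_union, mem_union]
      by_cases q1 : prim e.1
      · right
        rcases classify hF hp hP hY2 hYs (hn e he) q1 q2 with
          ⟨b, hb, k1, k2⟩ | ⟨g, hg, hs', k1, k2⟩
        · left
          rw [hVb, mem_biUnion]
          refine ⟨b, hb, ?_⟩
          rw [mem_filter]
          exact ⟨m1, typeb hF hp hP hs (nm_pos hD (hJ.ne _ hP.p1)) k1 k2⟩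
        · right
          rcases hs' with h | h
          · left
            rw [mem_biUnion]
            refine ⟨g, mem_filter.2 ⟨hg, h⟩, ?_⟩
            rw [hW]
            simp only
            rw [mem_filter]
            exact ⟨m1, k1, k2⟩
          · right
            rw [mem_biUnion]
            refine ⟨g, mem_filter.2 ⟨hg, h⟩, ?_⟩
            rw [hW]
            simp only
            rw [mem_filter]
            exact ⟨m1, k1, k2⟩
      · left
        rw [hA, mem_filter]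
        exact ⟨m1, q1⟩
    · right
      rw [hA, mem_filter]
      exact ⟨m2, q2⟩
  have hD1 : D.card ≤ B * V1.card + B * A.card := by
    have e1 : D.card ≤ (D.filter (fun e => e.1 ∈ V1)).card + (D.filter (fun e => e.2 ∈ A)).card := by
      refine le_trans (card_le_card ?_) (card_union_le _ _)
      intro e he
      rw [mem_union, mem_filter, mem_filter]
      rcases hcover e he with h | h
      · left; exact ⟨he, h⟩
      · right; exact ⟨he, h⟩
    have e2 := partner1 hF hJ hp hZ hs0 hs (D.filter (fun e => e.1 ∈ V1)) V1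
      (fun e he => hDD e (mem_filter.1 he).1) (fun e he => (mem_filter.1 he).2)
    have e3 := partner2 hF hJ hp hZ hs0 hs (D.filter (fun e => e.2 ∈ A)) A
      (fun e he => hDD e (mem_filter.1 he).1) (fun e he => (mem_filter.1 he).2)
    rw [← hB] at e2 e3
    omega
  have hD1R : (D.card : ℝ) ≤ B * V1.card + B * A.card := by exact_mod_cast hD1
  have hBR : (B : ℝ) = (⌊2 / s⌋₊ : ℝ) + 1 := by rw [hB]; push_cast; ring
  rw [← hBR]
  have hV1c2 : (V1.card : ℝ) + A.card ≤ 32 * (Z / p) + 16 * Y * B +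
      2 * (128 * (1 + f) * Z * Real.sqrt κ + 16 * (κ * Y)) := by linarith
  calc (D.card : ℝ) ≤ B * V1.card + B * A.card := hD1R
    _ = B * ((V1.card : ℝ) + A.card) := by ring
    _ ≤ _ := by gcongr

/-! ### Multiplication by `δ/m` -/

section dl

variable {m p : ℕ} {r₀ : ℤ} {δ : Qd t c}

lemma lat_dt {a b : Qd t c} (ha : lat m r₀ a) (hb : lat m r₀ b) : (m : ℤ) ∣ dt a b := by
  obtain ⟨x, hx⟩ := ha
  obtain ⟨y, hy⟩ := hb
  refine ⟨x * b.im - a.im * y, ?_⟩
  unfold dt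
  linear_combination b.im * hx - a.im * hy

lemma lat_ip (h : (m : ℤ) ∣ r₀ ^ 2 - t * r₀ + c) {a b : Qd t c} (ha : lat m r₀ a)
    (hb : lat m r₀ b) : (m : ℤ) ∣ ip a b := by
  obtain ⟨x, hx⟩ := ha
  obtain ⟨y, hy⟩ := hb
  obtain ⟨z, hz⟩ := h
  refine ⟨x * b.re - r₀ * a.im * y + t * a.im * y + a.im * b.im * z, ?_⟩
  unfold ip
  linear_combination b.re * hx + (t * a.im - r₀ * a.im) * hy + a.im * b.im * hz

lemma lat_mul (h : (m : ℤ) ∣ r₀ ^ 2 - t * r₀ + c) {a u : Qd t c} (ha : lat m r₀ a) :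
    lat m r₀ (a * u) := by
  obtain ⟨x, hx⟩ := ha
  obtain ⟨z, hz⟩ := h
  refine ⟨x * u.re + r₀ * x * u.im - a.im * u.im * z, ?_⟩
  simp only [QuadraticAlgebra.re_mul, QuadraticAlgebra.im_mul]
  linear_combination (u.re + r₀ * u.im) * hx - a.im * u.im * hz

lemma lat_neg {a : Qd t c} (ha : lat m r₀ a) : lat m r₀ (-a) := by
  obtain ⟨x, hx⟩ := ha
  refine ⟨-x, ?_⟩
  simp only [QuadraticAlgebra.re_neg, QuadraticAlgebra.im_neg]
  linear_combination -hx

/-- `m (δ v / m) = δ v` -/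
lemma dl_spec (h : (m : ℤ) ∣ r₀ ^ 2 - t * r₀ + c) (hδ : lat m r₀ (star δ)) {v : Qd t c}
    (hv : lat m r₀ v) : ((m : ℕ) : Qd t c) * Pool.Agent.N912.LC.dl m δ v = δ * v := by
  have h1 : (m : ℤ) ∣ (δ * v).re := by
    have := lat_ip h hδ hv
    have e : ip (star δ) v = (δ * v).re := by
      unfold ip
      simp only [QuadraticAlgebra.re_mul, QuadraticAlgebra.re_star, QuadraticAlgebra.im_star]
      ring
    rwa [e] at this
  have h2 : (m : ℤ) ∣ (δ * v).im := by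
    have := lat_dt hδ hv
    have e : dt (star δ) v = (δ * v).im := by
      unfold dt
      simp only [QuadraticAlgebra.im_mul, QuadraticAlgebra.re_star, QuadraticAlgebra.im_star]
      ring
    rwa [e] at this
  apply QuadraticAlgebra.ext
  · rw [QuadraticAlgebra.re_mul]
    simp only [QuadraticAlgebra.re_natCast, QuadraticAlgebra.im_natCast, Pool.Agent.N912.LC.dl]
    rw [mul_zero, zero_mul, add_zero]
    exact Int.mul_ediv_cancel' h1
  · rw [QuadraticAlgebra.im_mul]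
    simp only [QuadraticAlgebra.re_natCast, QuadraticAlgebra.im_natCast, Pool.Agent.N912.LC.dl]
    rw [zero_mul, mul_zero, zero_mul, add_zero, add_zero]
    exact Int.mul_ediv_cancel' h2

lemma dt_nat (n : ℕ) (a b : Qd t c) : dt (((n : ℕ) : Qd t c) * a) (((n : ℕ) : Qd t c) * b) =
    (n : ℤ) ^ 2 * dt a b := by
  unfold dt
  simp only [QuadraticAlgebra.re_mul, QuadraticAlgebra.im_mul, QuadraticAlgebra.re_natCast,
    QuadraticAlgebra.im_natCast]
  ring

lemma pp_nat (n : ℕ) (a b : Qd t c) : pp (((n : ℕ) : Qd t c) * a) (((n : ℕ) : Qd t c) * b) =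
    (n : ℤ) ^ 2 * pp a b := by
  rw [ppZ, ppZ]
  simp only [QuadraticAlgebra.re_mul, QuadraticAlgebra.im_mul, QuadraticAlgebra.re_natCast,
    QuadraticAlgebra.im_natCast]
  ring

lemma nat_cancel {n : ℕ} (hn : 0 < n) {a b : Qd t c}
    (h : ((n : ℕ) : Qd t c) * a = ((n : ℕ) : Qd t c) * b) : a = b := by
  have hnZ : (n : ℤ) ≠ 0 := by exact_mod_cast hn.ne'
  have e3 := congrArg QuadraticAlgebra.re h
  have e4 := congrArg QuadraticAlgebra.im h
  rw [QuadraticAlgebra.re_mul, QuadraticAlgebra.re_mul] at e3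
  rw [QuadraticAlgebra.im_mul, QuadraticAlgebra.im_mul] at e4
  simp only [QuadraticAlgebra.re_natCast, QuadraticAlgebra.im_natCast, zero_mul, mul_zero,
    add_zero] at e3 e4
  exact QuadraticAlgebra.ext (mul_left_cancel₀ hnZ e3) (mul_left_cancel₀ hnZ e4)

variable (hD : t ^ 2 < 4 * c) (hm : 0 < m) (h : (m : ℤ) ∣ r₀ ^ 2 - t * r₀ + c)
  (hδ : lat m r₀ (star δ)) (hn : nm δ = m * p)

include hD hm h hδ hn

lemma dt_dl {v w : Qd t c} (hv : lat m r₀ v) (hw : lat m r₀ w) :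
    (m : ℤ) * dt (Pool.Agent.N912.LC.dl m δ v) (Pool.Agent.N912.LC.dl m δ w) = p * dt v w := by
  have h1 := dt_nat m (Pool.Agent.N912.LC.dl m δ v) (Pool.Agent.N912.LC.dl m δ w)
  rw [dl_spec h hδ hv, dl_spec h hδ hw, dt_mul hD, hn] at h1
  push_cast at h1
  have hmZ : (m : ℤ) ≠ 0 := by exact_mod_cast hm.ne'
  apply mul_left_cancel₀ hmZ
  linear_combination -h1

lemma pp_dl {v w : Qd t c} (hv : lat m r₀ v) (hw : lat m r₀ w) :
    (m : ℤ) * pp (Pool.Agent.N912.LC.dl m δ v) (Pool.Agent.N912.LC.dl m δ w) = p * pp v w := by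
  have h1 := pp_nat m (Pool.Agent.N912.LC.dl m δ v) (Pool.Agent.N912.LC.dl m δ w)
  rw [dl_spec h hδ hv, dl_spec h hδ hw, pp_mul hD, hn] at h1
  push_cast at h1
  have hmZ : (m : ℤ) ≠ 0 := by exact_mod_cast hm.ne'
  apply mul_left_cancel₀ hmZ
  linear_combination -h1

lemma nm_dl {v : Qd t c} (hv : lat m r₀ v) :
    m * nm (Pool.Agent.N912.LC.dl m δ v) = p * nm v := by
  have h1 : nm (((m : ℕ) : Qd t c) * Pool.Agent.N912.LC.dl m δ v) = nm (δ * v) := by
    rw [dl_spec h hδ hv]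
  rw [nm_mul, nm_mul, nm_natCast, hn] at h1
  apply Nat.eq_of_mul_eq_mul_left hm
  calc m * (m * nm (Pool.Agent.N912.LC.dl m δ v)) =
      m ^ 2 * nm (Pool.Agent.N912.LC.dl m δ v) := by ring
    _ = m * p * nm v := h1
    _ = m * (p * nm v) := by ring

/-- `star δ (δ v / m) = p v` -/
lemma star_dl {v : Qd t c} (hv : lat m r₀ v) :
    star δ * Pool.Agent.N912.LC.dl m δ v = ((p : ℕ) : Qd t c) * v := by
  apply nat_cancel hm
  calc ((m : ℕ) : Qd t c) * (star δ * Pool.Agent.N912.LC.dl m δ v) =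
      star δ * (((m : ℕ) : Qd t c) * Pool.Agent.N912.LC.dl m δ v) := by ring
    _ = (star δ * δ) * v := by rw [dl_spec h hδ hv, mul_assoc]
    _ = ((m : ℕ) : Qd t c) * (((p : ℕ) : Qd t c) * v) := by
      rw [star_mul_self' hD, hn]
      push_cast
      ring

/-- the primitive vectors of the ideal `{δ v / m}` -/
def JJ (m : ℕ) (r₀ : ℤ) (δ : Qd t c) (a : Qd t c) : Prop :=
  ∃ v w : Qd t c, lat m r₀ v ∧ lat m r₀ w ∧ dt v w = m ∧ a = Pool.Agent.N912.LC.dl m δ v

omit hD h hδ hn in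
/-- two parallel primitive vectors of the lattice are equal up to sign -/
lemma par_lat {v w v' w' : Qd t c} (hv : lat m r₀ v) (hw : lat m r₀ w) (hd : dt v w = m)
    (hv' : lat m r₀ v') (hw' : lat m r₀ w') (hd' : dt v' w' = m) (h0 : dt v v' = 0) :
    v' = v ∨ v' = -v := by
  have hmZ : (m : ℤ) ≠ 0 := by exact_mod_cast hm.ne'
  obtain ⟨k, hk⟩ := lat_dt hv' hw
  obtain ⟨l, hl⟩ := lat_dt hv hw'
  have hr : v'.re = k * v.re := by
    apply mul_left_cancel₀ hmZ
    unfold dt at *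
    linear_combination (-v'.re) * hd + w.re * h0 + v.re * hk
  have hi : v'.im = k * v.im := by
    apply mul_left_cancel₀ hmZ
    unfold dt at *
    linear_combination (-v'.im) * hd + w.im * h0 + v.im * hk
  have hkl : k * l = 1 := by
    apply mul_left_cancel₀ hmZ
    unfold dt at hl hd'
    rw [hr, hi] at hd'
    linear_combination hd' - k * hl
  rcases Int.isUnit_iff.1 (IsUnit.of_mul_eq_one _ hkl) with h1 | h1
  · left
    apply QuadraticAlgebra.ext
    · rw [hr, h1, one_mul]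
    · rw [hi, h1, one_mul]
  · right
    apply QuadraticAlgebra.ext
    · rw [hr, h1, QuadraticAlgebra.re_neg]; ring
    · rw [hi, h1, QuadraticAlgebra.im_neg]; ring

lemma dl_neg {v : Qd t c} (hv : lat m r₀ v) :
    Pool.Agent.N912.LC.dl m δ (-v) = -Pool.Agent.N912.LC.dl m δ v := by
  apply nat_cancel hm
  rw [dl_spec h hδ (lat_neg hv), mul_neg, mul_neg, dl_spec h hδ hv]

theorem sys (hp : p.Prime) : Sys t c p (JJ m r₀ δ) := by
  have hmZ : (m : ℤ) ≠ 0 := by exact_mod_cast hm.ne'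
  have hpZ : (p : ℤ) ≠ 0 := by exact_mod_cast hp.ne_zero
  refine ⟨?_, ?_, ?_, ?_⟩
  · rintro a ⟨v, w, hv, hw, hd, rfl⟩ h0
    have h1 := nm_dl hD hm h hδ hn hv
    rw [h0, nm_zero, mul_zero] at h1
    have h2 : nm v = 0 := by
      rcases Nat.mul_eq_zero.1 h1.symm with h3 | h3
      · exact absurd h3 hp.ne_zero
      · exact h3
    rw [nm_eq_zero hD] at h2
    rw [h2] at hd
    apply hmZ
    rw [← hd]
    simp [dt]
  · rintro a b ⟨v, w, hv, hw, hd, rfl⟩ ⟨v', w', hv', hw', hd', rfl⟩ h0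
    have h1 := dt_dl hD hm h hδ hn hv hv'
    rw [h0, mul_zero] at h1
    have h2 : dt v v' = 0 := by
      rcases mul_eq_zero.1 h1.symm with h3 | h3
      · exact absurd h3 hpZ
      · exact h3
    rcases par_lat hm hv hw hd hv' hw' hd' h2 with h3 | h3
    · left
      rw [h3]
    · right
      rw [h3, dl_neg hD hm h hδ hn hv]
  · rintro a b ⟨v, w, hv, hw, hd, rfl⟩ ⟨v', w', hv', hw', hd', rfl⟩
    obtain ⟨k, hk⟩ := lat_dt hv hv'
    refine ⟨k, ?_⟩
    apply mul_left_cancel₀ hmZ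
    rw [dt_dl hD hm h hδ hn hv hv', hk]
    ring
  · rintro a ⟨v, w, hv, hw, hd, rfl⟩ hnp
    rw [prim_iff] at hnp
    push Not at hnp
    obtain ⟨l, hl, u, hu⟩ := hnp
    by_cases hlp : l = p
    · exact ⟨u, by rw [hu, hlp]⟩
    · exfalso
      have h1 := star_dl hD hm h hδ hn hv
      rw [hu] at h1
      have h2 : ((l : ℕ) : Qd t c) * (star δ * u) = ((p : ℕ) : Qd t c) * v := by
        rw [← h1]
        ring
      have h3 := lat_mul (u := u) h hδ
      obtain ⟨k, hk⟩ := lat_dt h3 hw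
      have h4 : (l : ℤ) * dt (star δ * u) w = p * dt v w := by
        have e1 : dt (((l : ℕ) : Qd t c) * (star δ * u)) w = (l : ℤ) * dt (star δ * u) w := by
          generalize star δ * u = z
          unfold dt
          simp only [QuadraticAlgebra.re_mul, QuadraticAlgebra.im_mul, QuadraticAlgebra.re_natCast,
            QuadraticAlgebra.im_natCast]
          ring
        have e2 : dt (((p : ℕ) : Qd t c) * v) w = (p : ℤ) * dt v w := by
          unfold dt
          simp only [QuadraticAlgebra.re_mul, QuadraticAlgebra.im_mul, QuadraticAlgebra.re_natCast,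
            QuadraticAlgebra.im_natCast]
          ring
        rw [← e1, ← e2, h2]
      rw [hk, hd] at h4
      have h5 : (l : ℤ) * k = p := by
        apply mul_left_cancel₀ hmZ
        linear_combination h4
      have h6 : (l : ℤ) ∣ p := ⟨k, h5.symm⟩
      have h7 : l ∣ p := by exact_mod_cast h6
      exact hlp ((Nat.prime_dvd_prime_iff_eq hl hp).1 h7)

lemma dl_inj (hp : 0 < p) {v v' : Qd t c} (hv : lat m r₀ v) (hv' : lat m r₀ v')
    (he : Pool.Agent.N912.LC.dl m δ v = Pool.Agent.N912.LC.dl m δ v') : v = v' := by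
  apply nat_cancel hp
  rw [← star_dl hD hm h hδ hn hv, ← star_dl hD hm h hδ hn hv', he]

/-- the images of the pairs -/
lemma pe_of {s Z : ℝ} {e : Qd t c × Qd t c} (h1 : lat m r₀ e.1) (h2 : lat m r₀ e.2)
    (hd : dt e.1 e.2 = m) (hpp : 0 < pp e.1 e.2) (hp : 0 < p)
    (n1 : (nm e.1 : ℝ) ≤ m * Z) (n2 : (nm e.2 : ℝ) ≤ m * Z)
    (l1 : s * (m * Z) < (nm e.1 : ℝ)) (l2 : s * (m * Z) < (nm e.2 : ℝ)) :
    Pe (JJ m r₀ δ) p s Z
      (Pool.Agent.N912.LC.dl m δ e.1, Pool.Agent.N912.LC.dl m δ e.2) := by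
  have hmZ : (m : ℤ) ≠ 0 := by exact_mod_cast hm.ne'
  have hmZ' : (0 : ℤ) < m := by exact_mod_cast hm
  have hpZ' : (0 : ℤ) < p := by exact_mod_cast hp
  have hmR : (0 : ℝ) < m := by exact_mod_cast hm
  have hpR : (0 : ℝ) < p := by exact_mod_cast hp
  have hN : ∀ v : Qd t c, lat m r₀ v →
      (m : ℝ) * nm (Pool.Agent.N912.LC.dl m δ v) = p * nm v := by
    intro v hv
    exact_mod_cast nm_dl hD hm h hδ hn hv
  have up : ∀ v : Qd t c, lat m r₀ v → (nm v : ℝ) ≤ m * Z →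
      (nm (Pool.Agent.N912.LC.dl m δ v) : ℝ) ≤ p * Z := by
    intro v hv hv2
    apply le_of_mul_le_mul_left _ hmR
    rw [hN v hv]
    have : (p : ℝ) * nm v ≤ p * (m * Z) := by gcongr
    linarith
  have lw : ∀ v : Qd t c, lat m r₀ v → s * (m * Z) < (nm v : ℝ) →
      s * (p * Z) < (nm (Pool.Agent.N912.LC.dl m δ v) : ℝ) := by
    intro v hv hv2
    apply lt_of_mul_lt_mul_left _ hmR.le
    rw [hN v hv]
    have : (p : ℝ) * (s * (m * Z)) < p * nm v := by gcongr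
    linarith
  refine ⟨⟨e.1, e.2, h1, h2, hd, rfl⟩, ⟨e.2, -e.1, h2, lat_neg h1, ?_, rfl⟩, up _ h1 n1, up _ h2 n2,
    ?_, ?_, lw _ h1 l1, lw _ h2 l2⟩
  · rw [← hd]
    unfold dt
    simp only [QuadraticAlgebra.re_neg, QuadraticAlgebra.im_neg]
    ring
  · have := dt_dl hD hm h hδ hn h1 h2
    rw [hd] at this
    apply mul_left_cancel₀ hmZ
    simp only
    rw [this]
    ring
  · have := pp_dl hD hm h hδ hn h1 h2
    have h3 : 0 < (m : ℤ) *
        pp (Pool.Agent.N912.LC.dl m δ e.1) (Pool.Agent.N912.LC.dl m δ e.2) := by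
      rw [this]
      exact mul_pos hpZ' hpp
    exact pos_of_mul_pos_right h3 hmZ'.le

end dl

open Pool.Agent.N912.LC (Iv DL InL S_LOSSL) in
/-- few pairs are lost, in the ideal `{z : lat m r₀ z}` -/
theorem lossl {t c : ℤ} {f : ℕ} {χ : Pool.Agent.N912.EP.W78EG.PS f}
    (hF' : Pool.Agent.N912.EP.W78EG.Fd t c f χ) {m : ℕ} {r₀ : ℤ} (hI : Iv t c m r₀) :
    S_LOSSL t c χ m r₀ := by
  classical
  have hF := Pool.Agent.N912.EP.W78EG.toED hF'
  have hD := hD_of hF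
  have hf3 : (3 : ℝ) ≤ f := by exact_mod_cast hF.three
  have hm : 0 < m := hI.pos
  intro s ε hs hε
  set B : ℝ := (⌊2 / s⌋₊ : ℝ) + 1 with hB
  have hB0 : 0 < B := by positivity
  obtain ⟨K₁, hK₁⟩ := exists_nat_gt (max (1 / s) (max 1 (96 * B * B / ε)))
  refine ⟨K₁, fun K hK => ?_⟩
  have hKR : (K₁ : ℝ) ≤ K := by exact_mod_cast hK
  have hK1 : 1 / s < K := lt_of_lt_of_le (lt_of_le_of_lt (le_max_left _ _) hK₁) hKR
  have hK2 : 1 < (K : ℝ) := lt_of_lt_of_le (lt_of_le_of_lt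
    ((le_max_left _ _).trans (le_max_right _ _)) hK₁) hKR
  have hK3 : 96 * B * B / ε < K := lt_of_lt_of_le (lt_of_le_of_lt
    ((le_max_right _ _).trans (le_max_right _ _)) hK₁) hKR
  have hK0 : (0 : ℝ) < K := by linarith
  refine ⟨min (1 / 4) ((ε / (960 * (1 + f) * B)) ^ 2), by positivity, fun κ hκ hκ' => ?_⟩
  have hκ4 : κ ≤ 1 / 4 := hκ'.trans (min_le_left _ _)
  have hκs : Real.sqrt κ ≤ ε / (960 * (1 + f) * B) := by
    rw [Real.sqrt_le_left (by positivity)]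
    exact hκ'.trans (min_le_right _ _)
  have hκκ : κ ≤ Real.sqrt κ := by
    rw [Real.le_sqrt' hκ]
    nlinarith
  obtain ⟨Q₀, hQ₀⟩ := exists_nat_gt (max 1 (96 * B / ε))
  refine ⟨Q₀, fun Q hQ => ?_⟩
  have hQR : (Q₀ : ℝ) ≤ Q := by exact_mod_cast hQ
  have hQ1 : (1 : ℝ) < Q := lt_of_lt_of_le (lt_of_le_of_lt (le_max_left _ _) hQ₀) hQR
  have hQ2 : 96 * B / ε < (Q : ℝ) := lt_of_lt_of_le (lt_of_le_of_lt (le_max_right _ _) hQ₀) hQR
  refine ⟨max (2 * f * Q / s) (f * (K * Q)), fun X hX p hp δ hn hδ => ?_⟩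
  have hX1 : 2 * f * Q / s ≤ X := (le_max_left _ _).trans hX
  have hX2 : f * (K * Q) ≤ X := (le_max_right _ _).trans hX
  obtain ⟨⟨hp1, hp2⟩, hpp, -⟩ := Pool.Agent.N912.EP.W78EG.mem_PQ'.1 hp
  have hp1R : (Q : ℝ) < p := by exact_mod_cast hp1
  have hp2R : (p : ℝ) ≤ 2 * Q := by exact_mod_cast hp2
  have hpR : (0 : ℝ) < p := by linarith
  have hX0 : 0 < X := lt_of_lt_of_le (by positivity) hX2
  have hZ0 : 0 < X / p := by positivity
  set D₀ : Finset (Qd t c × Qd t c) := (DL t c m r₀ (X / p)).filter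
    (fun e => 0 < pp e.1 e.2 ∧ s * (m * (X / p)) < (nm e.1 : ℝ) ∧
      s * (m * (X / p)) < (nm e.2 : ℝ) ∧ ¬ InL m K κ Q X δ e) with hD₀
  set Φ : Qd t c × Qd t c → Qd t c × Qd t c := fun e =>
    (Pool.Agent.N912.LC.dl m δ e.1, Pool.Agent.N912.LC.dl m δ e.2) with hΦ
  have memD : ∀ e ∈ D₀, ((1 ≤ nm e.1 ∧ (nm e.1 : ℝ) ≤ m * (X / p)) ∧
      (1 ≤ nm e.2 ∧ (nm e.2 : ℝ) ≤ m * (X / p))) ∧ (lat m r₀ e.1 ∧ lat m r₀ e.2 ∧
      dt e.1 e.2 = m) ∧ 0 < pp e.1 e.2 ∧ s * (m * (X / p)) < (nm e.1 : ℝ) ∧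
      s * (m * (X / p)) < (nm e.2 : ℝ) ∧ ¬ InL m K κ Q X δ e := by
    intro e he
    rw [hD₀] at he
    unfold DL at he
    rw [mem_filter, mem_filter, mem_product, mem_ball hD, mem_ball hD] at he
    exact ⟨he.1.1, he.1.2, he.2⟩
  have hcard : D₀.card = (D₀.image Φ).card := by
    rw [card_image_of_injOn]
    intro e he e' he' hee
    rw [mem_coe] at he he'
    obtain ⟨-, ⟨k1, k2, -⟩, -⟩ := memD e he
    obtain ⟨-, ⟨k1', k2', -⟩, -⟩ := memD e' he'
    simp only [hΦ, Prod.mk.injEq] at hee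
    exact Prod.ext (dl_inj hD hm hI.dvd hδ hn hpp.pos k1 k1' hee.1)
      (dl_inj hD hm hI.dvd hδ hn hpp.pos k2 k2' hee.2)
  have h1 := count hF (K := K) (Q := Q) (κ := κ) (s := s) (X := X)
    (sys hD hm hI.dvd hδ hn hpp) hpp.pos hs
    (by
      have e1 : 2 * f * Q ≤ X * s := by rwa [div_le_iff₀ hs] at hX1
      rw [mul_div_assoc', le_div_iff₀ hpR]
      have e2 : (f : ℝ) * p ≤ f * (2 * Q) := by gcongr
      linarith)
    hκ hκ4 (by rw [le_div_iff₀ (by positivity)]; exact hX2)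
    (by
      rw [div_le_iff₀ (by positivity)]
      have e1 : 1 < s * K := by rwa [div_lt_iff₀ hs, mul_comm] at hK1
      have e2 : 1 * 1 ≤ (s * K) * Q := mul_le_mul e1.le hQ1.le zero_le_one (by positivity)
      have e3 : X * 1 ≤ X * ((s * K) * Q) := by
        apply mul_le_mul_of_nonneg_left _ hX0.le
        linarith
      linarith)
    (D₀.image Φ)
    (by
      intro e he
      rw [mem_image] at he
      obtain ⟨e, he, rfl⟩ := he
      obtain ⟨⟨⟨-, n1⟩, -, n2⟩, ⟨k1, k2, k3⟩, k4, k5, k6, -⟩ := memD e he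
      exact pe_of hD hm hI.dvd hδ hn k1 k2 k3 k4 hpp.pos n1 n2 k5 k6)
    (by
      intro e he
      rw [mem_image] at he
      obtain ⟨e, he, rfl⟩ := he
      obtain ⟨-, -, -, -, -, k7⟩ := memD e he
      exact k7)
  rw [← hcard] at h1
  refine h1.trans ?_
  rw [← hB]
  set Z : ℝ := X / p with hZ
  have hY : X / (K * Q) ≤ 2 * Z / K := by
    exact fin_b hX0 hK0 (by linarith) hpR hp2R
  have hY' : X / (K * Q) ≤ 2 * Z := by
    refine hY.trans ?_
    rw [div_le_iff₀ hK0]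
    have e1 : 2 * Z * 1 ≤ 2 * Z * K := by gcongr
    linarith
  have hZp : Z / p ≤ Z / Q := by
    apply div_le_div_of_nonneg_left hZ0.le (by linarith) hp1R.le
  have t1 : B * (32 * (Z / p)) ≤ ε / 3 * Z := by
    have e1 : B * (32 * (Z / p)) ≤ B * (32 * (Z / Q)) := by gcongr
    have e2 : B * (32 * (Z / Q)) = 32 * B * Z / Q := by ring
    have e3 : 32 * B * Z / Q ≤ ε / 3 * Z := by
      rw [div_lt_iff₀ hε] at hQ2
      exact fin_a (C := 32 * B) hZ0 (by linarith) (by linarith) rfl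
    linarith
  have t2 : B * (16 * (X / (K * Q)) * B) ≤ ε / 3 * Z := by
    have e1 : B * (16 * (X / (K * Q)) * B) ≤ B * (16 * (2 * Z / K) * B) := by gcongr
    have e2 : B * (16 * (2 * Z / K) * B) = 32 * B * B * Z / K := by ring
    have e3 : 32 * B * B * Z / K ≤ ε / 3 * Z := by
      rw [div_lt_iff₀ hε] at hK3
      exact fin_a (C := 32 * B * B) hZ0 hK0 (by linarith) rfl
    linarith
  have t3 : B * (2 * (128 * (1 + f) * Z * Real.sqrt κ + 16 * (κ * (X / (K * Q))))) ≤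
      ε / 3 * Z := by
    have e1 : κ * (X / (K * Q)) ≤ Real.sqrt κ * (2 * Z) := by gcongr
    have e2 : B * (2 * (128 * (1 + f) * Z * Real.sqrt κ + 16 * (κ * (X / (K * Q))))) ≤
        B * (2 * (128 * (1 + f) * Z * Real.sqrt κ + 16 * (Real.sqrt κ * (2 * Z)))) := by gcongr
    have e3 : B * (2 * (128 * (1 + f) * Z * Real.sqrt κ + 16 * (Real.sqrt κ * (2 * Z)))) =
        (256 * (1 + f) + 64) * (B * Z * Real.sqrt κ) := by ring
    have e3' : (256 * (1 + (f : ℝ)) + 64) * (B * Z * Real.sqrt κ) ≤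
        (320 * (1 + f)) * (B * Z * Real.sqrt κ) := by
      gcongr
      linarith
    have e4 : (320 * (1 + (f : ℝ))) * (B * Z * Real.sqrt κ) ≤
        (320 * (1 + f)) * (B * Z * (ε / (960 * (1 + f) * B))) := by gcongr
    have e5 : (320 * (1 + (f : ℝ))) * (B * Z * (ε / (960 * (1 + f) * B))) = ε / 3 * Z := by
      field_simp
      ring
    linarith
  calc B * (32 * (Z / p) + 16 * (X / (K * Q)) * B +
      2 * (128 * (1 + f) * Z * Real.sqrt κ + 16 * (κ * (X / (K * Q)))))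
      = B * (32 * (Z / p)) + B * (16 * (X / (K * Q)) * B) +
        B * (2 * (128 * (1 + f) * Z * Real.sqrt κ + 16 * (κ * (X / (K * Q))))) := by ring
    _ ≤ ε * Z := by linarith

end Pool.Agent.N80.LC
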